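import Mathlib

set_option autoImplicit false

namespace Pool.Agent.Lib.MP_ec82ff_co

/-- A trigraph on the vertex set `V`: every pair of distinct vertices is a black edge, a red edge or
a non-edge. -/
structure Trigraph (V : Type) where
  black : SimpleGraph V
  red : SimpleGraph V
  disj : ∀ x y : V, black.Adj x y → ¬ red.Adj x y

/-- A graph seen as a trigraph without red edges. -/
def Trigraph.ofGraph {V : Type} (G : SimpleGraph V) : Trigraph V where
  black := G
  red := ⊥
  disj := fun _ _ _ h => h

/-- `T'` arises from `T` by contracting the distinct vertices `u` and `v`. The vertex set of `T'` is that of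
`T` without `v`, and `u` plays the role of the new vertex `w`. For every other vertex `x`, the pair `w x` is
black when `u x` and `v x` are both black, a non-edge when `u x` and `v x` are both non-edges, and red
otherwise. All other pairs are unchanged. -/
structure IsContraction {V : Type} (T : Trigraph V) (u v : V) (T' : Trigraph {x : V // x ≠ v}) :
    Prop where
  black_new : ∀ w x : {x : V // x ≠ v}, (w : V) = u → (x : V) ≠ u →
    (T'.black.Adj w x ↔ T.black.Adj u x ∧ T.black.Adj v x)
  red_new : ∀ w x : {x : V // x ≠ v}, (w : V) = u → (x : V) ≠ u →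
    (T'.red.Adj w x ↔ ¬ (T.black.Adj u x ∧ T.black.Adj v x) ∧
      ¬ ((¬ T.black.Adj u x ∧ ¬ T.red.Adj u x) ∧ (¬ T.black.Adj v x ∧ ¬ T.red.Adj v x)))
  black_old : ∀ x y : {x : V // x ≠ v}, (x : V) ≠ u → (y : V) ≠ u →
    (T'.black.Adj x y ↔ T.black.Adj x y)
  red_old : ∀ x y : {x : V // x ≠ v}, (x : V) ≠ u → (y : V) ≠ u →
    (T'.red.Adj x y ↔ T.red.Adj x y)

/-- The bandwidth of a graph on a finite vertex set. -/
noncomputable def bandwidth {V : Type} (H : SimpleGraph V) : ℕ :=
  sInf {k : ℕ | ∃ σ : V ≃ Fin (Nat.card V), ∀ u v : V, H.Adj u v →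
    (((σ u : ℕ) : ℤ) - ((σ v : ℕ) : ℤ)).natAbs ≤ k}

/-- `T` has a contraction sequence down to a trigraph with a single vertex such that the red graphs of all
trigraphs of the sequence (`T` and the last one included) have bandwidth at most `k`. -/
inductive SeqLE (k : ℕ) : (V : Type) → Trigraph V → Prop
  | single (V : Type) (T : Trigraph V) (hV : Nat.card V = 1) (hb : bandwidth T.red ≤ k) :
      SeqLE k V T
  | step (V : Type) (T : Trigraph V) (u v : V) (huv : u ≠ v) (T' : Trigraph {x : V // x ≠ v})
      (hc : IsContraction T u v T') (hb : bandwidth T.red ≤ k)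
      (h : SeqLE k {x : V // x ≠ v} T') : SeqLE k V T

/-- The reduced bandwidth: minimum over contraction sequences of the maximum bandwidth of the red graphs. -/
noncomputable def reducedBandwidth {V : Type} (G : SimpleGraph V) : ℕ :=
  sInf {k : ℕ | SeqLE k V (Trigraph.ofGraph G)}

/-- Vertices of the `p`-subdivision of `K_n`: the `n` branch vertices and, for every edge `i < j`, the `p`
internal vertices `0, ..., p - 1` of the path from `i` to `j`. -/
abbrev SubVert (n p : ℕ) : Type := Fin n ⊕ ({e : Fin n × Fin n // e.1 < e.2} × Fin p)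

/-- Oriented adjacency in the `p`-subdivision of `K_n` (`p ≥ 1`): `i` is joined to the first internal vertex
of the path from `i` to `j`, the `t`-th internal vertex is joined to the next one, and the last internal vertex
is joined to `j`. -/
def subRel (n p : ℕ) : SubVert n p → SubVert n p → Prop
  | Sum.inl i, Sum.inr (e, t) => i = e.1.1 ∧ (t : ℕ) = 0
  | Sum.inr (e, t), Sum.inr (e', t') => e = e' ∧ (t' : ℕ) = t + 1
  | Sum.inr (e, t), Sum.inl j => j = e.1.2 ∧ (t : ℕ) + 1 = p
  | _, _ => False

/-- The `p`-subdivision of the complete graph on `n` vertices, for `p ≥ 1`. -/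
def subdividedComplete (n p : ℕ) : SimpleGraph (SubVert n p) :=
  SimpleGraph.fromRel (subRel n p)

end Pool.Agent.Lib.MP_ec82ff_co
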