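import Mathlib
import Pool.Agent.Lib.MP_ec82ff_co.Defs

set_option autoImplicit false

namespace Pool.Agent.Lib.MP_ec82ff_co

/-! ### Proof -/

section general

variable {X W : Type}

/-- the class `y` of the map `π` has at most one element -/
def Sing (π : X → W) (y : W) : Prop := ∀ a a' : X, π a = y → π a' = y → a = a'

/-- `T` is the quotient trigraph of `G` along `π` -/
structure Char (G : SimpleGraph X) (π : X → W) (T : Trigraph W) : Prop where
  surj : Function.Surjective π
  black : ∀ x y : W, x ≠ y → (T.black.Adj x y ↔ ∀ a b : X, π a = x → π b = y → G.Adj a b)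
  red : ∀ x y : W, x ≠ y → (T.red.Adj x y ↔
    (¬ ∀ a b : X, π a = x → π b = y → G.Adj a b) ∧ ¬ ∀ a b : X, π a = x → π b = y → ¬ G.Adj a b)

lemma char_ofGraph (G : SimpleGraph X) : Char G id (Trigraph.ofGraph G) := by
  refine ⟨Function.surjective_id, ?_, ?_⟩
  · intro x y _
    constructor
    · rintro h a b rfl rfl
      exact h
    · intro h
      exact h x y rfl rfl
  · intro x y _
    constructor
    · intro h
      exact absurd h (by simp [Trigraph.ofGraph])
    · rintro ⟨h1, h2⟩
      exfalso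
      by_cases h : G.Adj x y
      · apply h1
        rintro a b rfl rfl
        exact h
      · apply h2
        rintro a b rfl rfl
        exact h

/-- in terms of classes: not black and not red iff there are no edges -/
lemma Char.nonedge {G : SimpleGraph X} {π : X → W} {T : Trigraph W} (h : Char G π T) (x y : W)
    (hxy : x ≠ y) : (¬ T.black.Adj x y ∧ ¬ T.red.Adj x y) ↔
      ∀ a b : X, π a = x → π b = y → ¬ G.Adj a b := by
  rw [h.black x y hxy, h.red x y hxy]
  constructor
  · rintro ⟨h1, h2⟩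
    by_contra h3
    exact h2 ⟨h1, h3⟩
  · intro h1
    obtain ⟨a, ha⟩ := h.surj x
    obtain ⟨b, hb⟩ := h.surj y
    exact ⟨fun h2 => h1 a b ha hb (h2 a b ha hb), fun h2 => h2.2 h1⟩

/-- the projection of a contraction -/
noncomputable def proj (u v : W) (huv : u ≠ v) (x : W) : {x : W // x ≠ v} := by
  classical
  exact if h : x = v then ⟨u, huv⟩ else ⟨x, h⟩

lemma proj_v (u v : W) (huv : u ≠ v) : proj u v huv v = ⟨u, huv⟩ := by
  simp [proj]

lemma proj_ne (u v : W) (huv : u ≠ v) (x : W) (h : x ≠ v) : proj u v huv x = ⟨x, h⟩ := by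
  simp [proj, h]

lemma proj_eq_old (u v : W) (huv : u ≠ v) (x : W) (y : {x : W // x ≠ v}) (hy : (y : W) ≠ u) :
    proj u v huv x = y ↔ x = y := by
  by_cases h : x = v
  · subst h
    rw [proj_v]
    constructor
    · intro h1
      exact absurd (congrArg Subtype.val h1).symm hy
    · intro h1
      exact absurd h1.symm y.2
  · rw [proj_ne u v huv x h]
    constructor
    · intro h1
      exact congrArg Subtype.val h1
    · intro h1
      exact Subtype.ext h1

lemma proj_eq_new (u v : W) (huv : u ≠ v) (x : W) (y : {x : W // x ≠ v}) (hy : (y : W) = u) :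
    proj u v huv x = y ↔ (x = u ∨ x = v) := by
  by_cases h : x = v
  · subst h
    rw [proj_v]
    constructor
    · intro _
      exact Or.inr rfl
    · intro _
      exact Subtype.ext hy.symm
  · rw [proj_ne u v huv x h]
    constructor
    · intro h1
      have := congrArg Subtype.val h1
      exact Or.inl (this.trans hy)
    · rintro (h1 | h1)
      · exact Subtype.ext (h1.trans hy.symm)
      · exact absurd h1 h

lemma char_contract {G : SimpleGraph X} {π : X → W} {T : Trigraph W} (h : Char G π T)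
    (u v : W) (huv : u ≠ v) (T' : Trigraph {x : W // x ≠ v}) (hc : IsContraction T u v T') :
    Char G (fun a => proj u v huv (π a)) T' := by
  have hnew : ∀ w x : {x : W // x ≠ v}, (w : W) = u → (x : W) ≠ u →
      ((T'.black.Adj w x ↔ ∀ a b : X, proj u v huv (π a) = w → proj u v huv (π b) = x → G.Adj a b) ∧
      (T'.red.Adj w x ↔
        (¬ ∀ a b : X, proj u v huv (π a) = w → proj u v huv (π b) = x → G.Adj a b) ∧
        ¬ ∀ a b : X, proj u v huv (π a) = w → proj u v huv (π b) = x → ¬ G.Adj a b)) := by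
    intro w x hw hx
    have hvx : v ≠ (x : W) := fun h' => x.2 h'.symm
    have hux : u ≠ (x : W) := fun h' => hx h'.symm
    have e1 : (T.black.Adj u x ∧ T.black.Adj v x) ↔
        ∀ a b : X, proj u v huv (π a) = w → proj u v huv (π b) = x → G.Adj a b := by
      rw [h.black u x hux, h.black v x hvx]
      constructor
      · rintro ⟨h1, h2⟩ a b ha hb
        rw [proj_eq_new u v huv _ w hw] at ha
        rw [proj_eq_old u v huv _ x hx] at hb
        rcases ha with ha | ha
        · exact h1 a b ha hb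
        · exact h2 a b ha hb
      · intro h1
        constructor
        · intro a b ha hb
          exact h1 a b ((proj_eq_new u v huv _ w hw).mpr (Or.inl ha))
            ((proj_eq_old u v huv _ x hx).mpr hb)
        · intro a b ha hb
          exact h1 a b ((proj_eq_new u v huv _ w hw).mpr (Or.inr ha))
            ((proj_eq_old u v huv _ x hx).mpr hb)
    have e2 : ((¬ T.black.Adj u x ∧ ¬ T.red.Adj u x) ∧ (¬ T.black.Adj v x ∧ ¬ T.red.Adj v x)) ↔
        ∀ a b : X, proj u v huv (π a) = w → proj u v huv (π b) = x → ¬ G.Adj a b := by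
      rw [h.nonedge u x hux, h.nonedge v x hvx]
      constructor
      · rintro ⟨h1, h2⟩ a b ha hb
        rw [proj_eq_new u v huv _ w hw] at ha
        rw [proj_eq_old u v huv _ x hx] at hb
        rcases ha with ha | ha
        · exact h1 a b ha hb
        · exact h2 a b ha hb
      · intro h1
        constructor
        · intro a b ha hb
          exact h1 a b ((proj_eq_new u v huv _ w hw).mpr (Or.inl ha))
            ((proj_eq_old u v huv _ x hx).mpr hb)
        · intro a b ha hb
          exact h1 a b ((proj_eq_new u v huv _ w hw).mpr (Or.inr ha))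
            ((proj_eq_old u v huv _ x hx).mpr hb)
    constructor
    · rw [hc.black_new w x hw hx]
      exact e1
    · rw [hc.red_new w x hw hx, e1, e2]
  have hold : ∀ x y : {x : W // x ≠ v}, (x : W) ≠ u → (y : W) ≠ u → x ≠ y →
      ((T'.black.Adj x y ↔ ∀ a b : X, proj u v huv (π a) = x → proj u v huv (π b) = y → G.Adj a b) ∧
      (T'.red.Adj x y ↔
        (¬ ∀ a b : X, proj u v huv (π a) = x → proj u v huv (π b) = y → G.Adj a b) ∧
        ¬ ∀ a b : X, proj u v huv (π a) = x → proj u v huv (π b) = y → ¬ G.Adj a b)) := by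
    intro x y hx hy hxy
    have hxy' : (x : W) ≠ y := fun h' => hxy (Subtype.ext h')
    simp only [proj_eq_old u v huv _ x hx, proj_eq_old u v huv _ y hy]
    exact ⟨(hc.black_old x y hx hy).trans (h.black x y hxy'),
      (hc.red_old x y hx hy).trans (h.red x y hxy')⟩
  refine ⟨?_, ?_, ?_⟩
  · intro y
    obtain ⟨a, ha⟩ := h.surj (y : W)
    refine ⟨a, ?_⟩
    simp only
    rw [ha, proj_ne u v huv _ y.2]
  · intro x y hxy
    by_cases hx : (x : W) = u
    · have hy : (y : W) ≠ u := fun h' => hxy (Subtype.ext (hx.trans h'.symm))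
      exact (hnew x y hx hy).1
    · by_cases hy : (y : W) = u
      · rw [SimpleGraph.adj_comm, (hnew y x hy hx).1]
        constructor
        · intro h1 a b ha hb
          exact (h1 b a hb ha).symm
        · intro h1 a b ha hb
          exact (h1 b a hb ha).symm
      · exact (hold x y hx hy hxy).1
  · intro x y hxy
    by_cases hx : (x : W) = u
    · have hy : (y : W) ≠ u := fun h' => hxy (Subtype.ext (hx.trans h'.symm))
      exact (hnew x y hx hy).2
    · by_cases hy : (y : W) = u
      · rw [SimpleGraph.adj_comm, (hnew y x hy hx).2]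
        constructor
        · rintro ⟨h1, h2⟩
          refine ⟨fun h3 => h1 fun a b ha hb => (h3 b a hb ha).symm,
            fun h3 => h2 fun a b ha hb hab => h3 b a hb ha hab.symm⟩
        · rintro ⟨h1, h2⟩
          refine ⟨fun h3 => h1 fun a b ha hb => (h3 b a hb ha).symm,
            fun h3 => h2 fun a b ha hb hab => h3 b a hb ha hab.symm⟩
      · exact (hold x y hx hy hxy).2

/-- two nonsingleton classes joined by an edge are joined by a red edge, when there is no 4-cycle -/
lemma red_of_nonsing {G : SimpleGraph X} {π : X → W} {T : Trigraph W} (h : Char G π T)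
    (hC4 : ∀ a a' y y' : X, a ≠ a' → G.Adj a y → G.Adj a' y → G.Adj a y' → G.Adj a' y' → y = y')
    (x y : W) (hxy : x ≠ y) (hx : ¬ Sing π x) (hy : ¬ Sing π y)
    (hadj : ∃ a b, π a = x ∧ π b = y ∧ G.Adj a b) : T.red.Adj x y := by
  rw [h.red x y hxy]
  unfold Sing at hx hy
  push Not at hx hy
  obtain ⟨a1, a2, ha1, ha2, hane⟩ := hx
  obtain ⟨b1, b2, hb1, hb2, hbne⟩ := hy
  constructor
  · intro hall
    exact hbne (hC4 a1 a2 b1 b2 hane (hall _ _ ha1 hb1) (hall _ _ ha2 hb1) (hall _ _ ha1 hb2)
      (hall _ _ ha2 hb2))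
  · intro hnone
    obtain ⟨a, b, ha, hb, hab⟩ := hadj
    exact hnone a b ha hb hab

lemma bandwidth_spec {V : Type} [Finite V] (H : SimpleGraph V) (k : ℕ) (hk : bandwidth H ≤ k) :
    ∃ σ : V ≃ Fin (Nat.card V), ∀ u v : V, H.Adj u v →
      (((σ u : ℕ) : ℤ) - ((σ v : ℕ) : ℤ)).natAbs ≤ k := by
  have hne : {k : ℕ | ∃ σ : V ≃ Fin (Nat.card V), ∀ u v : V, H.Adj u v →
      (((σ u : ℕ) : ℤ) - ((σ v : ℕ) : ℤ)).natAbs ≤ k}.Nonempty := by
    refine ⟨Nat.card V, Finite.equivFin V, fun u v _ => ?_⟩
    have h1 := (Finite.equivFin V u).is_lt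
    have h2 := (Finite.equivFin V v).is_lt
    omega
  obtain ⟨σ, hσ⟩ := Nat.sInf_mem hne
  exact ⟨σ, fun u v huv => (hσ u v huv).trans hk⟩

/-- The counting argument at the first contraction that touches a branch vertex. -/
lemma critical {G : SimpleGraph X} {π : X → W} {T : Trigraph W} [Finite W] (h : Char G π T)
    (hC4 : ∀ a a' y y' : X, a ≠ a' → G.Adj a y → G.Adj a' y → G.Adj a y' → G.Adj a' y' → y = y')
    {n p k : ℕ} (br : Fin n → X) (pv : Fin n → Fin n → ℕ → X)
    (hpv0 : ∀ b w, b ≠ w → pv b w 0 = br b) (hpv1 : ∀ b w, b ≠ w → pv b w (p + 1) = br w)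
    (hadj : ∀ b w t, b ≠ w → t ≤ p → G.Adj (pv b w t) (pv b w (t + 1)))
    (hinj : ∀ b w w' t t', b ≠ w → b ≠ w' → 1 ≤ t → t ≤ p + 1 → 1 ≤ t' → t' ≤ p + 1 →
      pv b w t = pv b w' t' → w = w')
    (hbw : bandwidth T.red ≤ k) (b : Fin n) (hb : ¬ Sing π (π (br b))) (S : Finset (Fin n))
    (hS : ∀ w ∈ S, Sing π (π (br w))) : S.card ≤ 2 * (k * (p + 1)) + 1 := by
  classical
  obtain ⟨σ, hσ⟩ := bandwidth_spec T.red k hbw
  have hbS : ∀ w ∈ S, b ≠ w := by
    rintro w hw rfl
    exact hb (hS _ hw)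
  have hex : ∀ w ∈ S, ∃ t, 1 ≤ t ∧ Sing π (π (pv b w t)) := by
    intro w hw
    refine ⟨p + 1, by omega, ?_⟩
    rw [hpv1 b w (hbS w hw)]
    exact hS w hw
  -- the first singleton
  have hj : ∀ w ∈ S, ∃ j, 1 ≤ j ∧ j ≤ p + 1 ∧ Sing π (π (pv b w j)) ∧
      ∀ t, t < j → ¬ Sing π (π (pv b w t)) := by
    intro w hw
    refine ⟨Nat.find (hex w hw), (Nat.find_spec (hex w hw)).1, ?_, (Nat.find_spec (hex w hw)).2, ?_⟩
    · apply Nat.find_min'
      refine ⟨by omega, ?_⟩
      rw [hpv1 b w (hbS w hw)]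
      exact hS w hw
    · intro t ht hsing
      by_cases ht0 : t = 0
      · subst ht0
        rw [hpv0 b w (hbS w hw)] at hsing
        exact hb hsing
      · exact Nat.find_min (hex w hw) ht ⟨by omega, hsing⟩
  choose! j hj1 hj2 hj3 hj4 using hj
  -- distance estimate
  have hdist : ∀ w ∈ S, ∀ t, t < j w →
      (((σ (π (pv b w t)) : ℕ) : ℤ) - ((σ (π (br b)) : ℕ) : ℤ)).natAbs ≤ k * t := by
    intro w hw t
    induction t with
    | zero =>
      intro _
      rw [hpv0 b w (hbS w hw)]
      simp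
    | succ t ih =>
      intro ht
      have ih' := ih (by omega)
      by_cases heq : π (pv b w (t + 1)) = π (pv b w t)
      · rw [heq]
        refine ih'.trans ?_
        exact Nat.mul_le_mul_left _ (by omega)
      · have hred : T.red.Adj (π (pv b w (t + 1))) (π (pv b w t)) := by
          apply red_of_nonsing h hC4 _ _ heq (hj4 w hw _ ht) (hj4 w hw _ (by omega))
          refine ⟨_, _, rfl, rfl, ?_⟩
          exact (hadj b w t (hbS w hw) (by have := hj2 w hw; omega)).symm
        have h1 := hσ _ _ hred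
        rw [Nat.mul_succ]
        omega
  -- the injection
  let F : Fin n → W := fun w =>
    if T.red.Adj (π (pv b w (j w - 1))) (π (pv b w (j w))) then π (pv b w (j w))
    else π (pv b w (j w - 1))
  have hFdist : ∀ w ∈ S, (((σ (F w) : ℕ) : ℤ) - ((σ (π (br b)) : ℕ) : ℤ)).natAbs ≤ k * (p + 1) := by
    intro w hw
    have h1 := hdist w hw (j w - 1) (by have := hj1 w hw; omega)
    have h2 : k * (j w - 1) + k ≤ k * (p + 1) := by
      calc k * (j w - 1) + k = k * (j w - 1 + 1) := by ring
        _ ≤ k * (p + 1) := Nat.mul_le_mul_left _ (by have := hj1 w hw; have := hj2 w hw; omega)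
    by_cases hred : T.red.Adj (π (pv b w (j w - 1))) (π (pv b w (j w)))
    · simp only [F, if_pos hred]
      have h3 := hσ _ _ hred
      omega
    · simp only [F, if_neg hred]
      omega
  have hall : ∀ w ∈ S, ¬ T.red.Adj (π (pv b w (j w - 1))) (π (pv b w (j w))) →
      ∀ a, π a = π (pv b w (j w - 1)) → G.Adj a (pv b w (j w)) := by
    intro w hw hnred a ha
    have hne : π (pv b w (j w - 1)) ≠ π (pv b w (j w)) := by
      intro heq
      apply hj4 w hw (j w - 1) (by have := hj1 w hw; omega)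
      rw [heq]
      exact hj3 w hw
    rw [h.red _ _ hne] at hnred
    have hadj' : G.Adj (pv b w (j w - 1)) (pv b w (j w)) := by
      have := hadj b w (j w - 1) (hbS w hw) (by have := hj2 w hw; omega)
      have e : j w - 1 + 1 = j w := by have := hj1 w hw; omega
      rwa [e] at this
    by_contra hna
    apply hnred
    refine ⟨fun hall' => hna (hall' a _ ha rfl), fun hnone => hnone _ _ rfl rfl hadj'⟩
  have hFinj : Set.InjOn F S := by
    intro w hw w' hw' hFF
    have hw := Finset.mem_coe.mp hw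
    have hw' := Finset.mem_coe.mp hw'
    by_cases hred : T.red.Adj (π (pv b w (j w - 1))) (π (pv b w (j w)))
    · by_cases hred' : T.red.Adj (π (pv b w' (j w' - 1))) (π (pv b w' (j w')))
      · simp only [F, if_pos hred, if_pos hred'] at hFF
        have := hj3 w hw _ _ rfl hFF.symm
        exact hinj b w w' _ _ (hbS w hw) (hbS w' hw') (hj1 w hw) (hj2 w hw) (hj1 w' hw')
          (hj2 w' hw') this
      · simp only [F, if_pos hred, if_neg hred'] at hFF
        exfalso
        apply hj4 w' hw' (j w' - 1) (by have := hj1 w' hw'; omega)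
        rw [← hFF]
        exact hj3 w hw
    · by_cases hred' : T.red.Adj (π (pv b w' (j w' - 1))) (π (pv b w' (j w')))
      · simp only [F, if_neg hred, if_pos hred'] at hFF
        exfalso
        apply hj4 w hw (j w - 1) (by have := hj1 w hw; omega)
        rw [hFF]
        exact hj3 w' hw'
      · simp only [F, if_neg hred, if_neg hred'] at hFF
        have hns := hj4 w hw (j w - 1) (by have := hj1 w hw; omega)
        unfold Sing at hns
        push Not at hns
        obtain ⟨a1, a2, ha1, ha2, hane⟩ := hns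
        have := hC4 a1 a2 _ _ hane (hall w hw hred a1 ha1) (hall w hw hred a2 ha2)
          (hall w' hw' hred' a1 (ha1.trans hFF)) (hall w' hw' hred' a2 (ha2.trans hFF))
        exact hinj b w w' _ _ (hbS w hw) (hbS w' hw') (hj1 w hw) (hj2 w hw) (hj1 w' hw')
          (hj2 w' hw') this
  -- count
  set c : ℤ := ((σ (π (br b)) : ℕ) : ℤ) with hc
  set r : ℕ := k * (p + 1) with hr
  have hcard : S.card ≤ (Finset.Icc (c - r) (c + r)).card := by
    apply Finset.card_le_card_of_injOn (fun w => ((σ (F w) : ℕ) : ℤ))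
    · intro w hw
      have h1 := hFdist w (Finset.mem_coe.mp hw)
      simp only [Finset.coe_Icc, Set.mem_Icc]
      omega
    · intro w hw w' hw' heq
      apply hFinj hw hw'
      apply σ.injective
      apply Fin.ext
      have heq' : ((σ (F w) : ℕ) : ℤ) = ((σ (F w') : ℕ) : ℤ) := heq
      exact_mod_cast heq'
  rw [Int.card_Icc] at hcard
  omega

/-- Induction along the contraction sequence. -/
lemma along {G : SimpleGraph X} [Finite X]
    (hC4 : ∀ a a' y y' : X, a ≠ a' → G.Adj a y → G.Adj a' y → G.Adj a y' → G.Adj a' y' → y = y')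
    {n p k : ℕ} (hn : 2 ≤ n) (br : Fin n → X) (hbr : Function.Injective br)
    (pv : Fin n → Fin n → ℕ → X)
    (hpv0 : ∀ b w, b ≠ w → pv b w 0 = br b) (hpv1 : ∀ b w, b ≠ w → pv b w (p + 1) = br w)
    (hadj : ∀ b w t, b ≠ w → t ≤ p → G.Adj (pv b w t) (pv b w (t + 1)))
    (hinj : ∀ b w w' t t', b ≠ w → b ≠ w' → 1 ≤ t → t ≤ p + 1 → 1 ≤ t' → t' ≤ p + 1 →
      pv b w t = pv b w' t' → w = w')
    (V : Type) (T : Trigraph V) (hseq : SeqLE k V T) :
    ∀ π : X → V, Char G π T → (∀ i, Sing π (π (br i))) → n ≤ 2 * (k * (p + 1)) + 3 := by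
  classical
  induction hseq with
  | single V T hV hb =>
    intro π hπ hsing
    exfalso
    have : Finite V := Finite.of_surjective π hπ.surj
    rw [Nat.card_eq_one_iff_unique] at hV
    obtain ⟨hsub, -⟩ := hV
    have h1 : br ⟨0, by omega⟩ = br ⟨1, by omega⟩ :=
      hsing ⟨0, by omega⟩ _ _ rfl (Subsingleton.elim _ _)
    have h2 := hbr h1
    simp at h2
  | step V T u v huv T' hc hb hseq' ih =>
    intro π hπ hsing
    have hchar := char_contract hπ u v huv T' hc
    set π' : X → {x : V // x ≠ v} := fun a => proj u v huv (π a) with hπ'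
    by_cases hall : ∀ i, Sing π' (π' (br i))
    · exact ih π' hchar hall
    · push Not at hall
      obtain ⟨b, hb'⟩ := hall
      have : Finite {x : V // x ≠ v} := Finite.of_surjective π' hchar.surj
      have hbw : bandwidth T'.red ≤ k := by
        cases hseq' with
        | single _ _ _ hb => exact hb
        | step _ _ _ _ _ _ _ hb _ => exact hb
      set S : Finset (Fin n) := Finset.univ.filter (fun i => Sing π' (π' (br i))) with hS
      have h1 := critical hchar hC4 br pv hpv0 hpv1 hadj hinj hbw b hb' S (by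
        intro w hw
        exact (Finset.mem_filter.mp hw).2)
      -- at most two branch vertices are not singletons
      have h2 : (Finset.univ.filter (fun i => ¬ Sing π' (π' (br i)))).card ≤ ({u, v} : Finset V).card := by
        apply Finset.card_le_card_of_injOn (fun i => π (br i))
        · intro i hi
          have hi' := (Finset.mem_filter.mp (Finset.mem_coe.mp hi)).2
          simp only [Finset.coe_insert, Finset.coe_singleton, Set.mem_insert_iff,
            Set.mem_singleton_iff]
          by_contra hcon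
          push Not at hcon
          apply hi'
          have e1 : π' (br i) = ⟨π (br i), hcon.2⟩ := proj_ne u v huv _ hcon.2
          intro a a' ha ha'
          rw [e1] at ha ha'
          have e2 := (proj_eq_old u v huv (π a) ⟨π (br i), hcon.2⟩ hcon.1).mp ha
          have e3 := (proj_eq_old u v huv (π a') ⟨π (br i), hcon.2⟩ hcon.1).mp ha'
          exact hsing i a a' e2 e3
        · intro i _ i' _ hii
          exact hbr (hsing i _ _ rfl hii.symm)
      have h3 : ({u, v} : Finset V).card ≤ 2 := Finset.card_le_two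
      have h4 := Finset.card_filter_add_card_filter_not (s := (Finset.univ : Finset (Fin n)))
        (fun i => Sing π' (π' (br i)))
      rw [Finset.card_univ, Fintype.card_fin] at h4
      have h5 : (Finset.univ.filter (fun i => Sing π' (π' (br i)))).card = S.card := by
        rw [hS]
      rw [h5] at h4
      omega

end general

/-! ### The graph -/

lemma adj_inl_inl {n p : ℕ} (i j : Fin n) :
    (subdividedComplete n p).Adj (Sum.inl i) (Sum.inl j) ↔ False := by
  simp [subdividedComplete, subRel]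

lemma adj_inl_inr {n p : ℕ} (i : Fin n) (e : {e : Fin n × Fin n // e.1 < e.2}) (t : Fin p) :
    (subdividedComplete n p).Adj (Sum.inl i) (Sum.inr (e, t)) ↔
      (((i : ℕ) = (e.1.1 : ℕ) ∧ (t : ℕ) = 0) ∨ ((i : ℕ) = (e.1.2 : ℕ) ∧ (t : ℕ) + 1 = p)) := by
  simp [subdividedComplete, subRel, Fin.ext_iff]

lemma adj_inr_inl {n p : ℕ} (i : Fin n) (e : {e : Fin n × Fin n // e.1 < e.2}) (t : Fin p) :
    (subdividedComplete n p).Adj (Sum.inr (e, t)) (Sum.inl i) ↔
      (((i : ℕ) = (e.1.1 : ℕ) ∧ (t : ℕ) = 0) ∨ ((i : ℕ) = (e.1.2 : ℕ) ∧ (t : ℕ) + 1 = p)) := by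
  rw [SimpleGraph.adj_comm, adj_inl_inr]

lemma adj_inr_inr {n p : ℕ} (e e' : {e : Fin n × Fin n // e.1 < e.2}) (t t' : Fin p) :
    (subdividedComplete n p).Adj (Sum.inr (e, t)) (Sum.inr (e', t')) ↔
      (((e.1.1 : ℕ) = (e'.1.1 : ℕ) ∧ (e.1.2 : ℕ) = (e'.1.2 : ℕ)) ∧
        ((t' : ℕ) = t + 1 ∨ (t : ℕ) = t' + 1)) := by
  obtain ⟨⟨x1, x2⟩, hx⟩ := e
  obtain ⟨⟨y1, y2⟩, hy⟩ := e'
  simp only [subdividedComplete, subRel, SimpleGraph.fromRel_adj, ne_eq, Sum.inr.injEq,
    Prod.mk.injEq, Subtype.mk.injEq, Fin.ext_iff]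
  omega

lemma no_C4 {n p : ℕ} (a a' y y' : SubVert n p) (hne : a ≠ a')
    (h1 : (subdividedComplete n p).Adj a y) (h2 : (subdividedComplete n p).Adj a' y)
    (h3 : (subdividedComplete n p).Adj a y') (h4 : (subdividedComplete n p).Adj a' y') :
    y = y' := by
  rcases a with i | ⟨⟨⟨a1, a2⟩, ha⟩, t⟩ <;>
  rcases a' with i' | ⟨⟨⟨b1, b2⟩, hb⟩, t'⟩ <;>
  rcases y with j | ⟨⟨⟨c1, c2⟩, hc⟩, s⟩ <;>
  rcases y' with j' | ⟨⟨⟨d1, d2⟩, hd⟩, s'⟩ <;>
  simp only [adj_inl_inl, adj_inl_inr, adj_inr_inl, adj_inr_inr] at h1 h2 h3 h4 <;>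
  simp only [Sum.inr.injEq, Sum.inl.injEq, reduceCtorEq,
    Prod.mk.injEq, Subtype.mk.injEq, Fin.ext_iff, ne_eq] at hne ⊢ <;>
  dsimp only at * <;>
  omega

/-- the path from `b` to `w` -/
def pv {n p : ℕ} (b w : Fin n) (t : ℕ) : SubVert n p :=
  if h0 : t = 0 then Sum.inl b
  else if hp : t ≤ p then
    (if h : b < w then Sum.inr (⟨(b, w), h⟩, ⟨t - 1, by omega⟩)
      else if h' : w < b then Sum.inr (⟨(w, b), h'⟩, ⟨p - t, by omega⟩) else Sum.inl b)
  else Sum.inl w

lemma pv_adj {n p : ℕ} (hp : 1 ≤ p) (b w : Fin n) (t : ℕ) (hbw : b ≠ w) (ht : t ≤ p) :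
    (subdividedComplete n p).Adj (pv b w t) (pv b w (t + 1)) := by
  have hbw' : (b : ℕ) ≠ w := fun h => hbw (Fin.ext h)
  unfold pv
  split_ifs <;>
  simp only [adj_inl_inl, adj_inl_inr, adj_inr_inl, adj_inr_inr, true_and] <;>
  first | omega | contradiction

lemma pv_inj {n p : ℕ} (b w w' : Fin n) (t t' : ℕ) (hbw : b ≠ w) (hbw' : b ≠ w') (ht : 1 ≤ t)
    (ht' : 1 ≤ t') (h : (pv b w t : SubVert n p) = pv b w' t') : w = w' := by
  have hbw1 : (b : ℕ) ≠ w := fun h => hbw (Fin.ext h)
  have hbw2 : (b : ℕ) ≠ w' := fun h => hbw' (Fin.ext h)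
  apply Fin.ext
  unfold pv at h
  split_ifs at h <;>
  simp only [Sum.inr.injEq, Sum.inl.injEq, reduceCtorEq,
    Prod.mk.injEq, Subtype.mk.injEq, Fin.ext_iff] at h <;>
  omega

/-! ### Existence of contraction sequences -/

lemma SeqLE.mono {k k' : ℕ} (hkk : k ≤ k') (V : Type) (T : Trigraph V) (h : SeqLE k V T) :
    SeqLE k' V T := by
  induction h with
  | single V T hV hb => exact SeqLE.single V T hV (hb.trans hkk)
  | step V T u v huv T' hc hb _ ih => exact SeqLE.step V T u v huv T' hc (hb.trans hkk) ih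

/-- every pair of distinct vertices can be contracted -/
lemma exists_contraction {V : Type} (T : Trigraph V) (u v : V) :
    ∃ T' : Trigraph {x : V // x ≠ v}, IsContraction T u v T' := by
  classical
  -- the fibre of a vertex
  let fib : {x : V // x ≠ v} → V → Prop := fun x x' => x' = x ∨ ((x : V) = u ∧ x' = v)
  let B : {x : V // x ≠ v} → {x : V // x ≠ v} → Prop := fun x y =>
    x ≠ y ∧ ∀ x' y', fib x x' → fib y y' → T.black.Adj x' y'
  let N : {x : V // x ≠ v} → {x : V // x ≠ v} → Prop := fun x y =>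
    ∀ x' y', fib x x' → fib y y' → ¬ T.black.Adj x' y' ∧ ¬ T.red.Adj x' y'
  have hBsymm : ∀ x y, B x y → B y x := fun x y h =>
    ⟨h.1.symm, fun x' y' hx hy => (h.2 y' x' hy hx).symm⟩
  have hNsymm : ∀ x y, N x y → N y x := fun x y h x' y' hx hy =>
    ⟨fun h' => (h y' x' hy hx).1 h'.symm, fun h' => (h y' x' hy hx).2 h'.symm⟩
  have hfibold : ∀ (x : {x : V // x ≠ v}) (x' : V), (x : V) ≠ u → (fib x x' ↔ x' = x) := by
    intro x x' hx
    constructor
    · rintro (h | h)
      · exact h
      · exact absurd h.1 hx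
    · intro h
      exact Or.inl h
  have hfibnew : ∀ (x : {x : V // x ≠ v}) (x' : V), (x : V) = u → (fib x x' ↔ x' = u ∨ x' = v) := by
    intro x x' hx
    constructor
    · rintro (h | h)
      · exact Or.inl (h.trans hx)
      · exact Or.inr h.2
    · rintro (h | h)
      · exact Or.inl (h.trans hx.symm)
      · exact Or.inr ⟨hx, h⟩
  refine ⟨⟨⟨B, ⟨fun x y h => hBsymm x y h⟩, ⟨fun x h => h.1 rfl⟩⟩,
    ⟨fun x y => x ≠ y ∧ ¬ B x y ∧ ¬ N x y,
      ⟨fun x y h => ⟨h.1.symm, fun h' => h.2.1 (hBsymm _ _ h'), fun h' => h.2.2 (hNsymm _ _ h')⟩⟩,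
      ⟨fun x h => h.1 rfl⟩⟩, fun x y h h' => h'.2.1 h⟩, ?_, ?_, ?_, ?_⟩
  · intro w x hw hx
    have hne : w ≠ x := fun h => hx (h ▸ hw)
    show B w x ↔ _
    simp only [B, hfibold x _ hx, hfibnew w _ hw]
    constructor
    · rintro ⟨_, h⟩
      exact ⟨h u x (Or.inl rfl) rfl, h v x (Or.inr rfl) rfl⟩
    · rintro ⟨h1, h2⟩
      refine ⟨hne, ?_⟩
      rintro x' y' (rfl | rfl) rfl
      · exact h1
      · exact h2
  · intro w x hw hx
    have hne : w ≠ x := fun h => hx (h ▸ hw)
    show (w ≠ x ∧ ¬ B w x ∧ ¬ N w x) ↔ _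
    have e1 : B w x ↔ (T.black.Adj u x ∧ T.black.Adj v x) := by
      simp only [B, hfibold x _ hx, hfibnew w _ hw]
      constructor
      · rintro ⟨_, h⟩
        exact ⟨h u x (Or.inl rfl) rfl, h v x (Or.inr rfl) rfl⟩
      · rintro ⟨h1, h2⟩
        refine ⟨hne, ?_⟩
        rintro x' y' (rfl | rfl) rfl
        · exact h1
        · exact h2
    have e2 : N w x ↔ ((¬ T.black.Adj u x ∧ ¬ T.red.Adj u x) ∧
        (¬ T.black.Adj v x ∧ ¬ T.red.Adj v x)) := by
      simp only [N, hfibold x _ hx, hfibnew w _ hw]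
      constructor
      · intro h
        exact ⟨h u x (Or.inl rfl) rfl, h v x (Or.inr rfl) rfl⟩
      · rintro ⟨h1, h2⟩ x' y' (rfl | rfl) rfl
        · exact h1
        · exact h2
    rw [e1, e2]
    exact ⟨fun h => h.2, fun h => ⟨hne, h⟩⟩
  · intro x y hx hy
    show B x y ↔ _
    simp only [B, hfibold x _ hx, hfibold y _ hy]
    constructor
    · rintro ⟨_, h⟩
      exact h x y rfl rfl
    · intro h
      refine ⟨fun h' => h.ne (congrArg Subtype.val h'), ?_⟩
      rintro x' y' rfl rfl
      exact h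
  · intro x y hx hy
    show (x ≠ y ∧ ¬ B x y ∧ ¬ N x y) ↔ _
    simp only [B, N, hfibold x _ hx, hfibold y _ hy]
    constructor
    · rintro ⟨hne, h1, h2⟩
      by_contra hr
      by_cases hb : T.black.Adj x y
      · apply h1
        refine ⟨hne, ?_⟩
        rintro x' y' rfl rfl
        exact hb
      · apply h2
        rintro x' y' rfl rfl
        exact ⟨hb, hr⟩
    · intro h
      refine ⟨fun h' => h.ne (congrArg Subtype.val h'), ?_, ?_⟩
      · rintro ⟨_, h1⟩
        exact T.disj _ _ (h1 x y rfl rfl) h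
      · intro h1
        exact (h1 x y rfl rfl).2 h

/-- every trigraph on a finite nonempty set has a contraction sequence -/
lemma exists_seq (m : ℕ) : ∀ (V : Type) [Finite V] (T : Trigraph V), Nat.card V = m + 1 →
    ∃ k, SeqLE k V T := by
  induction m with
  | zero =>
    intro V _ T hV
    exact ⟨bandwidth T.red, SeqLE.single V T hV le_rfl⟩
  | succ m ih =>
    intro V _ T hV
    have hnt : Nontrivial V := by
      rw [← Finite.one_lt_card_iff_nontrivial]; omega
    obtain ⟨u, v, huv⟩ := exists_pair_ne V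
    obtain ⟨T', hT'⟩ := exists_contraction T u v
    have hcard : Nat.card {x : V // x ≠ v} = m + 1 := by
      classical
      have : Fintype V := Fintype.ofFinite V
      rw [Nat.card_eq_fintype_card] at hV ⊢
      rw [Fintype.card_subtype_compl, Fintype.card_subtype_eq, hV]
      omega
    obtain ⟨k, hk⟩ := ih {x : V // x ≠ v} T' hcard
    exact ⟨max k (bandwidth T.red), SeqLE.step V T u v huv T' hT' (le_max_right _ _)
      (SeqLE.mono (le_max_left _ _) _ _ hk)⟩

/-- The minimum in the definition of the reduced bandwidth is attained. -/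
lemma reducedBandwidth_spec {V : Type} [Finite V] [Nonempty V] (G : SimpleGraph V) :
    SeqLE (reducedBandwidth G) V (Trigraph.ofGraph G) := by
  have hpos : 0 < Nat.card V := Nat.card_pos
  obtain ⟨k, hk⟩ := exists_seq (Nat.card V - 1) V (Trigraph.ofGraph G) (by omega)
  have hne : {k : ℕ | SeqLE k V (Trigraph.ofGraph G)}.Nonempty := ⟨k, hk⟩
  exact Nat.sInf_mem hne

/-- Explicit linear bound. -/
theorem explicit (n p : ℕ) (hn : 2 ≤ n) (hp : 1 ≤ p) :
    n ≤ (4 * reducedBandwidth (subdividedComplete n p) + 3) * p := by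
  set k := reducedBandwidth (subdividedComplete n p) with hk
  have : Nonempty (SubVert n p) := ⟨Sum.inl ⟨0, by omega⟩⟩
  have hseq : SeqLE k (SubVert n p) (Trigraph.ofGraph (subdividedComplete n p)) := by
    rw [hk]; exact reducedBandwidth_spec _
  have h := along (G := subdividedComplete n p) (X := SubVert n p) (n := n) (p := p) (k := k)
    (fun a a' y y' hne h1 h2 h3 h4 => no_C4 a a' y y' hne h1 h2 h3 h4) hn
    (fun i => Sum.inl i) Sum.inl_injective (fun b w t => pv b w t)
    (by intro b w _; simp [pv]) (by intro b w _; simp [pv])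
    (fun b w t hbw ht => pv_adj hp b w t hbw ht)
    (fun b w w' t t' h1 h2 h3 _ h5 _ h7 => pv_inj b w w' t t' h1 h2 h3 h5 h7)
    (SubVert n p) (Trigraph.ofGraph (subdividedComplete n p)) hseq id
    (char_ofGraph _) (fun i a a' ha ha' => ha.trans ha'.symm)
  have h1 : 2 * (k * (p + 1)) + 3 ≤ (4 * k + 3) * p := by
    nlinarith [Nat.mul_le_mul_left k hp]
  omega

end Pool.Agent.Lib.MP_ec82ff_co
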